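import Pool.Agent.H88.Gw3

open Pool.Agent.H88.Gw in
theorem Pool.Agent.Results.MP_40d550_an.Yes.result :
    ∃ (E : Type) (_ : NormedAddCommGroup E) (_ : NormedSpace ℝ E), CompleteSpace E ∧
      ¬ TopologicalSpace.SeparableSpace E ∧ Gurarii E ∧ WLD E ∧ WCG E := by
  obtain ⟨E, a, b, h1, h2, h3, h4⟩ := main
  exact ⟨E, a, b, h1, h2, h3, h4.wld, h4.wcg⟩
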